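import Mathlib

/-!
# FLY-COM: consequences of the commutativity for the blocks (abstract version of FLE/ComT, ComA, ComB,
Cmp)

`A t` and `B t` are the matrices of `c_1` and of the fundamental weight of the level for the value `t`
of the quantum parameter of the level.
-/

set_option autoImplicit false
set_option linter.unusedSectionVars false

noncomputable section

namespace Pool.Agent.FLY

/-- commuting matrices in block form -/
structure CB {m : ℕ} {W' W : Type} [Fintype W'] [Fintype W] [DecidableEq W']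
    (e : Fin (m + 2) × W' ≃ W) (E' : Matrix W' W' ℂ) (A B : ℂ → Matrix W W ℂ)
    (loA hiA loB hiB : Fin (m + 2) → Fin (m + 2) → Matrix W' W' ℂ) : Prop where
  hA : ∀ t v' v u w, A t (e (v', u)) (e (v, w)) =
    (if v' = v then E' u w else 0) + loA v' v u w + t * hiA v' v u w
  hB : ∀ t v' v u w, B t (e (v', u)) (e (v, w)) = loB v' v u w + t * hiB v' v u w
  comm : ∀ t, A t * B t = B t * A t
  loA0 : ∀ v' v, v ≤ v' → loA v' v = 0
  hiA0 : ∀ v' v, v' ≤ v → hiA v' v = 0
  loB0 : ∀ v' v, v ≤ v' → loB v' v = 0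
  hiB0 : ∀ v' v, v' ≤ v → hiB v' v = 0
  one : ∀ v : Fin (m + 1), loB v.castSucc v.succ = 1
  sum : ∑ v : Fin (m + 1), loA v.castSucc v.succ =
    (((m : ℂ) + 1) * (m + 2)) • (1 : Matrix W' W' ℂ)

section

variable {m : ℕ} {W' W : Type} [Fintype W'] [Fintype W] [DecidableEq W']
  {e : Fin (m + 2) × W' ≃ W} {E' : Matrix W' W' ℂ} {A B : ℂ → Matrix W W ℂ}
  {loA hiA loB hiB : Fin (m + 2) → Fin (m + 2) → Matrix W' W' ℂ}

/-- the blocks for `t = 0` -/
def dl (E' : Matrix W' W' ℂ) (loA : Fin (m + 2) → Fin (m + 2) → Matrix W' W' ℂ)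
    (x y : Fin (m + 2)) : Matrix W' W' ℂ := (if x = y then E' else 0) + loA x y

private theorem cb_A (D : CB e E' A B loA hiA loB hiB) (t : ℂ) (v' v : Fin (m + 2)) (u w : W') :
    A t (e (v', u)) (e (v, w)) = (dl E' loA v' v + t • hiA v' v) u w := by
  rw [D.hA]
  unfold dl
  rw [Matrix.add_apply, Matrix.add_apply, Matrix.smul_apply, smul_eq_mul]
  congr 2
  by_cases hv : v' = v
  · rw [if_pos hv, if_pos hv]
  · rw [if_neg hv, if_neg hv, Matrix.zero_apply]

private theorem cb_B (D : CB e E' A B loA hiA loB hiB) (t : ℂ) (v' v : Fin (m + 2)) (u w : W') :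
    B t (e (v', u)) (e (v, w)) = (loB v' v + t • hiB v' v) u w := by
  rw [D.hB, Matrix.add_apply, Matrix.smul_apply, smul_eq_mul]

private theorem cb_mul {A B : Matrix W W ℂ} {a b : Fin (m + 2) → Fin (m + 2) → Matrix W' W' ℂ}
    (hA : ∀ v' v u w, A (e (v', u)) (e (v, w)) = a v' v u w)
    (hB : ∀ v' v u w, B (e (v', u)) (e (v, w)) = b v' v u w) (v' v : Fin (m + 2)) (u w : W') :
    (A * B) (e (v', u)) (e (v, w)) = (∑ x, a v' x * b x v) u w := by
  rw [Matrix.mul_apply, ← e.sum_comp, Fintype.sum_prod_type, Matrix.sum_apply]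
  refine Finset.sum_congr rfl fun x _ => ?_
  rw [Matrix.mul_apply]
  refine Finset.sum_congr rfl fun y _ => ?_
  rw [hA, hB]

private theorem cb_key (D : CB e E' A B loA hiA loB hiB) (v' v : Fin (m + 2)) (t : ℂ) :
    ∑ x, dl E' loA v' x * loB x v +
        (t • ∑ x, (dl E' loA v' x * hiB x v + hiA v' x * loB x v) +
          (t * t) • ∑ x, hiA v' x * hiB x v) =
      ∑ x, loB v' x * dl E' loA x v +
        (t • ∑ x, (loB v' x * hiA x v + hiB v' x * dl E' loA x v) +
          (t * t) • ∑ x, hiB v' x * hiA x v) := by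
  have hx : ∀ a b a' b' : Fin (m + 2) → Fin (m + 2) → Matrix W' W' ℂ,
      ∑ x, (a v' x + t • a' v' x) * (b x v + t • b' x v) =
      ∑ x, a v' x * b x v + (t • ∑ x, (a v' x * b' x v + a' v' x * b x v) +
          (t * t) • ∑ x, a' v' x * b' x v) := by
    intro a b a' b'
    rw [Finset.smul_sum, Finset.smul_sum, ← Finset.sum_add_distrib, ← Finset.sum_add_distrib]
    refine Finset.sum_congr rfl fun x _ => ?_
    rw [add_mul, mul_add, mul_add, smul_add, Matrix.mul_smul, Matrix.smul_mul, Matrix.smul_mul,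
      Matrix.mul_smul, smul_smul]
    abel
  rw [← hx, ← hx]
  ext u w
  rw [← cb_mul (fun v' v u w => cb_A D t v' v u w) (fun v' v u w => cb_B D t v' v u w),
    ← cb_mul (fun v' v u w => cb_B D t v' v u w) (fun v' v u w => cb_A D t v' v u w), D.comm]

theorem CB.const (D : CB e E' A B loA hiA loB hiB) (v' v : Fin (m + 2)) :
    ∑ x, dl E' loA v' x * loB x v = ∑ x, loB v' x * dl E' loA x v := by
  have h0 := cb_key D v' v 0
  simpa only [zero_smul, mul_zero, add_zero] using h0

theorem CB.lin (D : CB e E' A B loA hiA loB hiB) (v' v : Fin (m + 2)) :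
    ∑ x, (dl E' loA v' x * hiB x v + hiA v' x * loB x v) =
      ∑ x, (loB v' x * hiA x v + hiB v' x * dl E' loA x v) := by
  have h1 := cb_key D v' v 1
  have h2 := cb_key D v' v (-1)
  rw [D.const v' v] at h1 h2
  have h1' := add_left_cancel h1
  have h2' := add_left_cancel h2
  simp only [one_smul, mul_one, neg_smul, mul_neg, neg_neg] at h1' h2'
  generalize ∑ x, (dl E' loA v' x * hiB x v + hiA v' x * loB x v) = Y at h1' h2' ⊢
  generalize ∑ x, (loB v' x * hiA x v + hiB v' x * dl E' loA x v) = Y' at h1' h2' ⊢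
  generalize ∑ x, hiA v' x * hiB x v = Z at h1' h2'
  generalize ∑ x, hiB v' x * hiA x v = Z' at h1' h2'
  ext u w
  have e1 := congrFun (congrFun h1' u) w
  have e2 := congrFun (congrFun h2' u) w
  simp only [Matrix.add_apply, Matrix.neg_apply] at e1 e2
  linear_combination (e1 - e2) / 2

private theorem dl_self (D : CB e E' A B loA hiA loB hiB) (x : Fin (m + 2)) :
    dl E' loA x x = E' := by
  unfold dl
  rw [if_pos rfl, D.loA0 x x (le_refl x), add_zero]

private theorem dl_ne {x y : Fin (m + 2)} (h : x ≠ y) : dl E' loA x y = loA x y := by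
  unfold dl
  rw [if_neg h, zero_add]

private theorem dl_lt (D : CB e E' A B loA hiA loB hiB) {x y : Fin (m + 2)} (h : y < x) :
    dl E' loA x y = 0 := by
  rw [dl_ne (ne_of_gt h), D.loA0 x y h.le]

/-- the corner block commutes with `E'` -/
theorem CB.com1 (D : CB e E' A B loA hiA loB hiB) :
    E' * hiB (Fin.last (m + 1)) 0 = hiB (Fin.last (m + 1)) 0 * E' := by
  have h1 := D.lin (Fin.last (m + 1)) 0
  have hL : ∑ x, (dl E' loA (Fin.last (m + 1)) x * hiB x 0 +
      hiA (Fin.last (m + 1)) x * loB x 0) = E' * hiB (Fin.last (m + 1)) 0 := by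
    rw [Fintype.sum_eq_single (Fin.last (m + 1)), dl_self D, D.loB0 _ 0 (Fin.zero_le _), mul_zero,
      add_zero]
    intro x hx
    rw [dl_lt D (lt_of_le_of_ne (Fin.le_last x) hx), D.loB0 x 0 (Fin.zero_le x), zero_mul,
      mul_zero, add_zero]
  have hR : ∑ x, (loB (Fin.last (m + 1)) x * hiA x 0 +
      hiB (Fin.last (m + 1)) x * dl E' loA x 0) = hiB (Fin.last (m + 1)) 0 * E' := by
    rw [Fintype.sum_eq_single (0 : Fin (m + 2)), dl_self D, D.loB0 _ 0 (Fin.zero_le _), zero_mul,
      zero_add]
    intro x hx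
    rw [dl_lt D (Fin.pos_of_ne_zero hx), D.loB0 _ x (Fin.le_last x), zero_mul,
      mul_zero, add_zero]
  rw [hL, hR] at h1
  exact h1

theorem CB.com2 (D : CB e E' A B loA hiA loB hiB) (v : Fin m) :
    E' * loB v.castSucc.castSucc v.succ.succ + loA v.castSucc.castSucc v.castSucc.succ =
      loB v.castSucc.castSucc v.succ.succ * E' + loA v.succ.castSucc v.succ.succ := by
  have h := D.const v.castSucc.castSucc v.succ.succ
  have hv1 : v.castSucc.succ = v.succ.castSucc := by ext; simp
  have h01 : v.castSucc.castSucc ≠ v.succ.castSucc := by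
    intro h
    have := congrArg Fin.val h
    simp at this
  have h12 : v.succ.castSucc ≠ v.succ.succ := by
    intro h
    have := congrArg Fin.val h
    simp at this
  have hL : ∑ x, dl E' loA v.castSucc.castSucc x * loB x v.succ.succ =
      E' * loB v.castSucc.castSucc v.succ.succ +
        loA v.castSucc.castSucc v.succ.castSucc := by
    rw [Fintype.sum_eq_add v.castSucc.castSucc v.succ.castSucc h01, dl_self D,
      dl_ne h01, D.one v.succ, mul_one]
    rintro x ⟨hx0, hx1⟩
    rcases lt_or_ge x v.castSucc.castSucc with hx | hx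
    · rw [dl_lt D hx, zero_mul]
    · have hx2 : v.succ.succ ≤ x := by
        rw [Fin.le_def] at hx ⊢
        have e0 : x.val ≠ (v.castSucc.castSucc).val := fun h => hx0 (Fin.ext h)
        have e1 : x.val ≠ (v.succ.castSucc).val := fun h => hx1 (Fin.ext h)
        simp only [Fin.val_castSucc, Fin.val_succ] at hx e0 e1 ⊢
        omega
      rw [D.loB0 _ _ hx2, mul_zero]
  have hR : ∑ x, loB v.castSucc.castSucc x * dl E' loA x v.succ.succ =
      loA v.succ.castSucc v.succ.succ +
        loB v.castSucc.castSucc v.succ.succ * E' := by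
    rw [Fintype.sum_eq_add v.succ.castSucc v.succ.succ h12, dl_self D,
      dl_ne h12, ← hv1, D.one v.castSucc, one_mul]
    rintro x ⟨hx1, hx2⟩
    rcases lt_or_ge v.succ.succ x with hx | hx
    · rw [dl_lt D hx, mul_zero]
    · have hx0 : x ≤ v.castSucc.castSucc := by
        rw [Fin.le_def] at hx ⊢
        have e1 : x.val ≠ (v.succ.castSucc).val := fun h => hx1 (Fin.ext h)
        have e2 : x.val ≠ (v.succ.succ).val := fun h => hx2 (Fin.ext h)
        simp only [Fin.val_castSucc, Fin.val_succ] at hx e1 e2 ⊢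
        omega
      rw [D.loB0 _ _ hx0, zero_mul]
  rw [hL, hR] at h
  rw [hv1, h]
  exact add_comm _ _

theorem CB.com3 (D : CB e E' A B loA hiA loB hiB) :
    E' * hiB (Fin.last m).castSucc 0 +
        loA (Fin.last m).castSucc (Fin.last m).succ * hiB (Fin.last (m + 1)) 0 =
      hiB (Fin.last m).castSucc 0 * E' + hiA (Fin.last (m + 1)) 0 := by
  have h := D.lin (Fin.last m).castSucc 0
  have hls : (Fin.last m).succ = Fin.last (m + 1) := Fin.succ_last m
  have hne : (Fin.last m).castSucc ≠ (Fin.last m).succ := by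
    intro h
    have := congrArg Fin.val h
    simp at this
  have hL : ∑ x, (dl E' loA (Fin.last m).castSucc x * hiB x 0 +
      hiA (Fin.last m).castSucc x * loB x 0) =
      E' * hiB (Fin.last m).castSucc 0 +
        loA (Fin.last m).castSucc (Fin.last m).succ * hiB (Fin.last (m + 1)) 0 := by
    have e : ∀ x : Fin (m + 2), dl E' loA (Fin.last m).castSucc x * hiB x 0 +
      hiA (Fin.last m).castSucc x * loB x 0 =
      dl E' loA (Fin.last m).castSucc x * hiB x 0 := fun x => by
      rw [D.loB0 _ _ (Fin.zero_le x), mul_zero, add_zero]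
    rw [Finset.sum_congr rfl fun x _ => e x,
      Fintype.sum_eq_add (Fin.last m).castSucc (Fin.last m).succ hne, dl_self D,
      dl_ne hne, hls]
    rintro x ⟨hx0, hx1⟩
    have hx : x < (Fin.last m).castSucc := by
      rw [Fin.lt_def]
      have e0 : x.val ≠ (Fin.last m).castSucc.val := fun h => hx0 (Fin.ext h)
      have e1 : x.val ≠ (Fin.last m).succ.val := fun h => hx1 (Fin.ext h)
      have e2 := x.isLt
      simp only [Fin.val_castSucc, Fin.val_succ, Fin.val_last] at e0 e1 ⊢
      omega
    rw [dl_lt D hx, zero_mul]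
  have hR : ∑ x, (loB (Fin.last m).castSucc x * hiA x 0 +
      hiB (Fin.last m).castSucc x * dl E' loA x 0) =
      hiA (Fin.last (m + 1)) 0 + hiB (Fin.last m).castSucc 0 * E' := by
    rw [Finset.sum_add_distrib, Fintype.sum_eq_single (Fin.last m).succ,
      Fintype.sum_eq_single (0 : Fin (m + 2)), dl_self D, D.one (Fin.last m), one_mul, hls]
    · intro x hx
      rw [dl_lt D (Fin.pos_of_ne_zero hx), mul_zero]
    · intro x hx
      have hx1 : x ≤ (Fin.last m).castSucc := by
        rw [Fin.le_def]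
        have e1 : x.val ≠ (Fin.last m).succ.val := fun h => hx (Fin.ext h)
        have e2 := x.isLt
        simp only [Fin.val_castSucc, Fin.val_succ, Fin.val_last] at e1 ⊢
        omega
      rw [D.loB0 _ _ hx1, zero_mul]
  rw [hL, hR] at h
  rw [h]
  exact add_comm _ _

private theorem conj_left {W' : Type} [Fintype W'] [DecidableEq W'] {P P' X' : Matrix W' W' ℂ}
    {c : W' → ℂ} (hP : P' * P = 1) (hA : P' * X' * P = Matrix.diagonal c)
    (X : Matrix W' W' ℂ) (J : W') : (P' * (X' * X) * P) J J = c J * (P' * X * P) J J := by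
  have h1 : P * P' = 1 := mul_eq_one_comm.mp hP
  have h2 : P' * X' = Matrix.diagonal c * P' := by
    rw [← hA, Matrix.mul_assoc, h1, Matrix.mul_one]
  rw [← Matrix.mul_assoc, h2, Matrix.mul_assoc, Matrix.mul_assoc, Matrix.diagonal_mul,
    ← Matrix.mul_assoc]

private theorem conj_right {W' : Type} [Fintype W'] [DecidableEq W'] {P P' X' : Matrix W' W' ℂ}
    {c : W' → ℂ} (hP : P' * P = 1) (hA : P' * X' * P = Matrix.diagonal c)
    (X : Matrix W' W' ℂ) (J : W') : (P' * (X * X') * P) J J = (P' * X * P) J J * c J := by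
  have h1 : P * P' = 1 := mul_eq_one_comm.mp hP
  have h2 : X' * P = P * Matrix.diagonal c := by
    rw [← hA, Matrix.mul_assoc, ← Matrix.mul_assoc P, h1, Matrix.one_mul]
  rw [← Matrix.mul_assoc, Matrix.mul_assoc (P' * X), h2, ← Matrix.mul_assoc, Matrix.mul_diagonal]

theorem CB.cmp_lo (D : CB e E' A B loA hiA loB hiB) {P P' : Matrix W' W' ℂ} {z : W' → ℂ}
    (hP : P' * P = 1) (hE : P' * E' * P = Matrix.diagonal z) (v : Fin (m + 1)) (J : W') :
    (P' * loA v.castSucc v.succ * P) J J = (m : ℂ) + 2 := by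
  set b : Fin (m + 1) → ℂ := fun v => (P' * loA v.castSucc v.succ * P) J J with hb
  have hstep : ∀ v : Fin m, b v.castSucc = b v.succ := by
    intro v
    have h1 := D.com2 v
    have h2 := congrArg (fun X => (P' * X * P) J J) h1
    simp only [Matrix.mul_add, Matrix.add_mul, Matrix.add_apply] at h2
    rw [conj_left hP hE, conj_right hP hE] at h2
    simp only [hb]
    linear_combination h2
  have hconst : ∀ v : Fin (m + 1), b v = b 0 := by
    intro v
    induction v using Fin.induction with
    | zero => rfl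
    | succ i ih => rw [← hstep i, ih]
  have hsum : ∑ v, b v = ((m : ℂ) + 1) * (m + 2) := by
    have h3 : ∑ v, b v = (P' * (∑ v : Fin (m + 1), loA v.castSucc v.succ) * P) J J := by
      rw [Finset.mul_sum, Finset.sum_mul, Matrix.sum_apply]
    rw [h3, D.sum, Matrix.mul_smul, Matrix.smul_mul, Matrix.mul_one, hP, Matrix.smul_apply,
      Matrix.one_apply_eq, smul_eq_mul, mul_one]
  rw [Finset.sum_congr rfl (fun v _ => hconst v), Finset.sum_const, Finset.card_univ,
    Fintype.card_fin, nsmul_eq_mul] at hsum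
  have h4 : ((m : ℂ) + 1) ≠ 0 := by exact_mod_cast Nat.succ_ne_zero m
  push_cast at hsum
  have h5 := mul_left_cancel₀ h4 hsum
  change b v = _
  rw [hconst v, h5]

theorem CB.cmp_hi (D : CB e E' A B loA hiA loB hiB) {P P' : Matrix W' W' ℂ} {z a : W' → ℂ}
    (hP : P' * P = 1) (hE : P' * E' * P = Matrix.diagonal z)
    (hT : P' * hiB (Fin.last (m + 1)) 0 * P = Matrix.diagonal a) (J : W') :
    (P' * hiA (Fin.last (m + 1)) 0 * P) J J = ((m : ℂ) + 2) * a J := by
  have h1 := D.com3
  have h2 := congrArg (fun X => (P' * X * P) J J) h1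
  simp only [Matrix.mul_add, Matrix.add_mul, Matrix.add_apply] at h2
  rw [conj_left hP hE, conj_right hP hE, conj_right hP hT, D.cmp_lo hP hE] at h2
  linear_combination -h2

end

end Pool.Agent.FLY
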