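import Pool.Agent.FLY.Main
import Pool.Agent.FLX.TDefs
import Pool.Agent.FLX.Out
import Pool.Agent.FLO.Defs

/-!
# FLY-OUT: the output of the asymptotic analysis for a root system with a tower
-/

set_option autoImplicit false

open scoped BigOperators

noncomputable section

namespace Pool.Agent.FLY

open Pool.Agent.FLG Pool.Agent.FLO

/-- The eigenvalue of `c_1` at the point with the moduli `s k` and the phases `x k` of the quantum
parameters is a sum of `r` terms of decreasing sizes `ρ k`. -/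
def NOut {r : ℕ} (D : RS r) (c : ℕ → ℕ) (δ : ℝ) : Prop :=
  ∃ ρ s : ℕ → ℝ, (∀ k, 0 < ρ k) ∧ (∀ k, 0 < s k) ∧ (∀ k, ρ (k + 1) ≤ δ * ρ k) ∧
    ∃ g : ℕ → (ℕ → ℝ) → ℂ, (∀ k, Continuous (g k)) ∧
      (∀ k x x', (∀ i ≤ k, IsPer (FLX.th c i x' - FLX.th c i x)) → g k x' = g k x) ∧
      (∀ k < r, ∀ x,
        ‖g k x - ((c k : ℂ) + 2) * ρ k * Complex.exp (Complex.I * FLX.th c k x)‖ ≤ δ * ρ k) ∧
      ∀ x : ℕ → ℝ, ∃ v : D.W → ℂ, v ≠ 0 ∧
        (FLX.MM D (fun k => s k * Complex.exp (Complex.I * x k)) FLX.two).mulVec v =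
          (∑ k ∈ Finset.range r, g k x) • v

theorem th_eq (c : ℕ → ℕ) (k : ℕ) (x : ℕ → ℝ) : FLX.th c k x = th c k x := by
  induction k with
  | zero => rfl
  | succ k ih =>
    have h1 : FLX.th c (k + 1) x = (x (k + 1) + c (k + 1) * FLX.th c k x) / ((c (k + 1) : ℝ) + 2) :=
      rfl
    rw [h1, ih]
    rfl

theorem mem_PW_top {r : ℕ} (D : RS r) (w : D.W) : w ∈ FLX.PW D r :=
  (FLX.mem_PW D).2 fun _ i hi => absurd i.isLt (not_lt.mpr hi)

/-- from the whole parabolic subgroup to the Weyl group -/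
theorem eig_top {r : ℕ} (D : RS r) (q h : ℕ → ℂ) {u : ℂ} {v : FLX.PW D r → ℂ} (hv : v ≠ 0)
    (hE : (FLX.M D r q h).mulVec v = u • v) :
    ∃ v' : D.W → ℂ, v' ≠ 0 ∧ (FLX.MM D q h).mulVec v' = u • v' := by
  set e : FLX.PW D r ≃ D.W := ⟨Subtype.val, fun w => ⟨w, mem_PW_top D w⟩, fun _ => rfl,
    fun _ => rfl⟩ with he
  refine ⟨fun w => v ⟨w, mem_PW_top D w⟩, fun h0 => hv ?_, ?_⟩
  · funext w
    exact congrFun h0 w.1
  · funext w
    have h1 := congrFun hE ⟨w, mem_PW_top D w⟩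
    rw [Matrix.mulVec, dotProduct] at h1 ⊢
    rw [← e.sum_comp]
    exact h1

theorem nout {r : ℕ} {D : RS r} {c : ℕ → ℕ}
    (t : Tow r c (fun l => FLX.PW D l) (fun l q => FLX.M D l q FLX.two)) :
    ∀ δ : ℝ, 0 < δ → NOut D c δ := by
  intro δ hδ
  obtain ⟨ρ, σ, g, h1, h2, h3, h4, h5, h6, h7⟩ := nest_main t hδ
  classical
  unfold NOut
  simp only [th_eq]
  refine ⟨fun k => if k < r then ρ k else δ ^ (k + 1 - r) * ρ (r - 1), σ, fun k => ?_, h2,
    fun k => ?_, fun k => if k < r then g k else 0, fun k => ?_, fun k x x' hx => ?_,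
    fun k hk x => ?_, fun x => ?_⟩
  · simp only
    split_ifs
    · exact h1 k
    · exact mul_pos (pow_pos hδ _) (h1 _)
  · simp only
    by_cases hk : k + 1 < r
    · rw [if_pos hk, if_pos (by omega)]
      exact h3 k hk
    · rw [if_neg hk]
      by_cases hk' : k < r
      · rw [if_pos hk']
        have e1 : k + 1 + 1 - r = 1 := by omega
        have e2 : r - 1 = k := by omega
        rw [e1, e2, pow_one]
      · rw [if_neg hk']
        have e1 : k + 1 + 1 - r = (k + 1 - r) + 1 := by omega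
        rw [e1, pow_succ]
        apply le_of_eq
        ring
  · simp only
    split_ifs with hk
    · exact h4 k hk
    · exact continuous_zero
  · simp only
    split_ifs with hk
    · exact h5 k hk x x' hx
    · rfl
  · simp only
    rw [if_pos hk, if_pos hk, mul_comm Complex.I]
    exact h6 k hk x
  · obtain ⟨v, hv, hE⟩ := h7 x
    obtain ⟨v', hv', hE'⟩ := eig_top D _ _ hv hE
    refine ⟨v', hv', ?_⟩
    have e1 : ∀ k : ℕ, Complex.exp (Complex.I * (x k : ℂ)) = Complex.exp (x k * Complex.I) :=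
      fun k => by rw [mul_comm]
    simp only [e1]
    rw [hE']
    congr 1
    refine Finset.sum_congr rfl (fun k hk => ?_)
    rw [if_pos (Finset.mem_range.mp hk)]

end Pool.Agent.FLY
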