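import Pool.Agent.FLY.Step
import Pool.Agent.FLE.Cont

/-!
# FLY-MAIN: the nested spectrum of a tower

`Tow` collects the facts about the tower `W 0, W 1, ..., W r` (Weyl groups of a chain of parabolic
subgroups; `E l q` is the quantum multiplication by `c_1`, `T l q` the corner operator, the level `l`
has `c l + 2` cosets).  `nest_main` is the conclusion.
-/

set_option autoImplicit false

noncomputable section

namespace Pool.Agent.FLY

open FLE (cont_eig)

structure Tow (r : ℕ) (c : ℕ → ℕ) (W : ℕ → Type) [∀ l, Fintype (W l)] [∀ l, DecidableEq (W l)]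
    (E : ∀ l, (ℕ → ℂ) → Matrix (W l) (W l) ℂ) where
  T : ∀ l : Fin r, (ℕ → ℂ) → Matrix (W l.val) (W l.val) ℂ
  e : ∀ l : Fin r, Fin (c l.val + 2) × W l.val ≃ W (l.val + 1)
  lo : ∀ l : Fin r, Fin (c l.val + 2) → Fin (c l.val + 2) → Matrix (W l.val) (W l.val) ℂ
  hi : ∀ l : Fin r, (ℕ → ℂ) → Fin (c l.val + 2) → Fin (c l.val + 2) →
    Matrix (W l.val) (W l.val) ℂ
  card_zero : Fintype.card (W 0) = 1
  E_zero : ∀ q, E 0 q = 0
  T_zero : ∀ (h : 0 < r) (q : ℕ → ℂ), T ⟨0, h⟩ q = 1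
  E_congr : ∀ l ≤ r, ∀ q q' : ℕ → ℂ, (∀ k < l, q k = q' k) → E l q = E l q'
  T_congr : ∀ (l : Fin r) (q q' : ℕ → ℂ), (∀ k < l.val, q k = q' k) → T l q = T l q'
  E_cont : ∀ l ≤ r, Continuous (E l)
  hi_bd : ∀ (l : Fin r) (S : ℝ), ∃ H : ℝ, ∀ q : ℕ → ℂ, (∀ k < l.val, ‖q k‖ ≤ S) →
    ∀ v' v u w, ‖hi l q v' v u w‖ ≤ H
  block : ∀ (l : Fin r) (q : ℕ → ℂ) (v' v : Fin (c l.val + 2)) (u w : W l.val),
    E (l.val + 1) q (e l (v', u)) (e l (v, w)) =
      (if v' = v then E l.val q u w else 0) + lo l v' v u w + q l.val * hi l q v' v u w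
  lo_zero : ∀ (l : Fin r) (v' v : Fin (c l.val + 2)), v ≤ v' → lo l v' v = 0
  hi_zero : ∀ (l : Fin r) (q : ℕ → ℂ) (v' v : Fin (c l.val + 2)), v' ≤ v → hi l q v' v = 0
  comm : ∀ (l : Fin r) (q : ℕ → ℂ), E l.val q * T l q = T l q * E l.val q
  cmp_lo : ∀ (l : Fin r) (q : ℕ → ℂ) (P P' : Matrix (W l.val) (W l.val) ℂ) (z : W l.val → ℂ),
    P' * P = 1 → P' * E l.val q * P = Matrix.diagonal z →
    ∀ (v : Fin (c l.val + 1)) (J : W l.val),
      (P' * lo l v.castSucc v.succ * P) J J = (c l.val : ℂ) + 2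
  cmp_hi : ∀ (l : Fin r) (q : ℕ → ℂ) (P P' : Matrix (W l.val) (W l.val) ℂ)
    (z a : W l.val → ℂ), P' * P = 1 → P' * E l.val q * P = Matrix.diagonal z →
    P' * T l q * P = Matrix.diagonal a → ∀ J : W l.val,
      (P' * hi l q (Fin.last (c l.val + 1)) 0 * P) J J = ((c l.val : ℂ) + 2) * a J
  form : ∀ (l : Fin r) (h : l.val + 1 < r) (q : ℕ → ℂ),
    TForm (c l.val) (c (l.val + 1)) (e l) (q l.val) (T l q) (T ⟨l.val + 1, h⟩ q)

/-- the quantum parameters with moduli `σ k` and phases `x k` -/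
def qq (σ : ℕ → ℝ) (x : ℕ → ℝ) : ℕ → ℂ := fun k => σ k * Complex.exp (x k * Complex.I)

/-- the angle of the `k`-th polygon -/
def th (c : ℕ → ℕ) : ℕ → (ℕ → ℝ) → ℝ
  | 0, x => x 0 / ((c 0 : ℝ) + 2)
  | k + 1, x => (x (k + 1) + c (k + 1) * th c k x) / ((c (k + 1) : ℝ) + 2)

/-- the argument of the eigenvalue of `T l` -/
def ang (c : ℕ → ℕ) : ℕ → (ℕ → ℝ) → ℝ
  | 0, _ => 0
  | k + 1, x => c (k + 1) * th c k x

theorem th_mul (c : ℕ → ℕ) (k : ℕ) (x : ℕ → ℝ) :
    ((c k : ℝ) + 2) * th c k x = x k + ang c k x := by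
  cases k with
  | zero =>
    have h : (c 0 : ℝ) + 2 ≠ 0 := by positivity
    rw [th, ang]
    field_simp
    ring
  | succ k =>
    have h : (c (k + 1) : ℝ) + 2 ≠ 0 := by positivity
    rw [th, ang]
    field_simp

theorem th_cont (c : ℕ → ℕ) (k : ℕ) : Continuous (th c k) := by
  induction k with
  | zero =>
    have : th c 0 = fun x => x 0 / ((c 0 : ℝ) + 2) := rfl
    rw [this]
    fun_prop
  | succ k ih =>
    have : th c (k + 1) = fun x => (x (k + 1) + c (k + 1) * th c k x) / ((c (k + 1) : ℝ) + 2) := rfl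
    rw [this]
    fun_prop

theorem x_per {c : ℕ → ℕ} {k : ℕ} {x x' : ℕ → ℝ}
    (h : ∀ i ≤ k, ∃ m : ℤ, th c i x' - th c i x = 2 * Real.pi * m) :
    ∀ i ≤ k, ∃ m : ℤ, x' i - x i = 2 * Real.pi * m := by
  intro i hi
  obtain ⟨m, hm⟩ := h i hi
  have e1 := th_mul c i x
  have e2 := th_mul c i x'
  cases i with
  | zero =>
    refine ⟨((c 0 : ℤ) + 2) * m, ?_⟩
    rw [ang] at e1 e2
    push_cast
    linear_combination e1 - e2 + ((c 0 : ℝ) + 2) * hm
  | succ j =>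
    obtain ⟨m', hm'⟩ := h j (by omega)
    refine ⟨((c (j + 1) : ℤ) + 2) * m - (c (j + 1) : ℤ) * m', ?_⟩
    rw [ang] at e1 e2
    push_cast
    linear_combination e1 - e2 + ((c (j + 1) : ℝ) + 2) * hm - (c (j + 1) : ℝ) * hm'

theorem exp_per {a a' : ℝ} {m : ℤ} (h : a' - a = 2 * Real.pi * m) :
    Complex.exp (a' * Complex.I) = Complex.exp (a * Complex.I) := by
  have h1 : (a' : ℂ) * Complex.I = a * Complex.I + m * (2 * Real.pi * Complex.I) := by
    have : a' = a + 2 * Real.pi * m := by linarith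
    rw [this]
    push_cast
    ring
  rw [h1]
  exact Complex.exp_periodic.int_mul m _

/-- eigenvectors from `Lev` -/
theorem Lev.eig {W : Type} [Fintype W] [DecidableEq W] {ok : Prop} {E T : Matrix W W ℂ}
    {b γ α : ℝ} {P P' : Matrix W W ℂ} {c a : W → ℂ} (h : Lev ok E T b γ α P P' c a) (i : W) :
    ∃ v : W → ℂ, v ≠ 0 ∧ E.mulVec v = c i • v := by
  have h1 : P * P' = 1 := mul_eq_one_comm.mp h.inv
  have h2 : E * P = P * Matrix.diagonal c := by
    rw [← h.hE, Matrix.mul_assoc, ← Matrix.mul_assoc P, h1, Matrix.one_mul]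
  refine ⟨fun x => P x i, fun h3 => ?_, ?_⟩
  · have h4 := congrFun (congrFun h.inv i) i
    rw [Matrix.mul_apply, Matrix.one_apply_eq, Finset.sum_eq_zero] at h4
    · exact zero_ne_one h4
    · intro x _
      rw [congrFun h3 x, Pi.zero_apply, mul_zero]
  · funext x
    have h4 := congrFun (congrFun h2 x) i
    rw [Matrix.mul_diagonal, Matrix.mul_apply] at h4
    rw [Matrix.mulVec, Pi.smul_apply, smul_eq_mul, mul_comm (c i), ← h4]
    rfl

theorem Lev.all {W : Type} [Fintype W] [DecidableEq W] {ok : Prop} {E T : Matrix W W ℂ}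
    {b γ α : ℝ} {P P' : Matrix W W ℂ} {c a : W → ℂ} (h : Lev ok E T b γ α P P' c a) {u : ℂ}
    (hu : ∃ v : W → ℂ, v ≠ 0 ∧ E.mulVec v = u • v) : ∃ j, c j = u := by
  obtain ⟨v, hv, hE⟩ := hu
  have h1 : P * P' = 1 := mul_eq_one_comm.mp h.inv
  have h2 : P' * E = Matrix.diagonal c * P' := by
    rw [← h.hE, Matrix.mul_assoc, h1, Matrix.mul_one]
  have h3 : P'.mulVec v ≠ 0 := fun h4 => by
    apply hv
    have h5 : P.mulVec (P'.mulVec v) = v := by
      rw [Matrix.mulVec_mulVec, h1, Matrix.one_mulVec]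
    rw [← h5, h4, Matrix.mulVec_zero]
  obtain ⟨j, hj⟩ := Function.ne_iff.mp h3
  refine ⟨j, ?_⟩
  have h4 : (Matrix.diagonal c).mulVec (P'.mulVec v) = u • P'.mulVec v := by
    rw [Matrix.mulVec_mulVec, ← h2, ← Matrix.mulVec_mulVec, hE, Matrix.mulVec_smul]
  have h5 := congrFun h4 j
  rw [Matrix.mulVec_diagonal, Pi.smul_apply, smul_eq_mul] at h5
  exact mul_right_cancel₀ hj h5

section

variable {r : ℕ} {c : ℕ → ℕ} {W : ℕ → Type} [∀ l, Fintype (W l)] [∀ l, DecidableEq (W l)]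
  {E : ∀ l, (ℕ → ℂ) → Matrix (W l) (W l) ℂ}

/-- the corner operators, also beyond the last level -/
def Tow.TT (D : Tow r c W E) (l : ℕ) (q : ℕ → ℂ) : Matrix (W l) (W l) ℂ :=
  if h : l < r then D.T ⟨l, h⟩ q else 1

theorem Tow.TT_lt (D : Tow r c W E) {l : ℕ} (h : l < r) (q : ℕ → ℂ) :
    D.TT l q = D.T ⟨l, h⟩ q := by
  unfold Tow.TT
  rw [dif_pos h]

theorem Lev.congr {D : Tow r c W E} {l : ℕ} (hl : l ≤ r) {q q' : ℕ → ℂ} {b γ α : ℝ}
    {P P' : Matrix (W l) (W l) ℂ} {z a : W l → ℂ}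
    (h : Lev (l < r) (E l q) (D.TT l q) b γ α P P' z a) (hq : ∀ k, k < l → q k = q' k) :
    Lev (l < r) (E l q') (D.TT l q') b γ α P P' z a := by
  have h1 : E l q = E l q' := D.E_congr l hl q q' hq
  refine ⟨h.inv, ?_, fun hlr => ?_, h.bd, h.bd', h.gap, h.abs⟩
  · rw [← h1]
    exact h.hE
  · have h2 : D.TT l q = D.TT l q' := by
      rw [D.TT_lt hlr, D.TT_lt hlr]
      exact D.T_congr ⟨l, hlr⟩ q q' hq
    rw [← h2]
    exact h.hT hlr

/-- the state of the induction -/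
structure St (D : Tow r c W E) (δ : ℝ) (l : ℕ) (ρ σ : ℕ → ℝ) (g : ℕ → (ℕ → ℝ) → ℂ)
    (b γ α : ℝ) : Prop where
  ρpos : ∀ k, 0 < ρ k
  σpos : ∀ k, 0 < σ k
  dec : ∀ k, k + 1 < l → ρ (k + 1) ≤ δ * ρ k
  cont : ∀ k < l, Continuous (g k)
  per : ∀ k < l, ∀ x x' : ℕ → ℝ, (∀ i ≤ k, ∃ m : ℤ, th c i x' - th c i x = 2 * Real.pi * m) →
    g k x' = g k x
  app : ∀ k < l, ∀ x,
    ‖g k x - ((c k : ℂ) + 2) * ρ k * Complex.exp (th c k x * Complex.I)‖ ≤ δ * ρ k
  hb : 0 ≤ b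
  hγ : 0 < γ
  hα : 0 < α
  lev : ∀ x, ∃ P P' z a, Lev (l < r) (E l (qq σ x)) (D.TT l (qq σ x)) b γ α P P' z a ∧ ∃ i,
    z i = ∑ k ∈ Finset.range l, g k x ∧ a i = α * Complex.exp (ang c l x * Complex.I)

theorem st_zero (D : Tow r c W E) (δ : ℝ) : St D δ 0 1 1 0 1 1 1 := by
  have hsub : Subsingleton (W 0) := Fintype.card_le_one_iff_subsingleton.mp D.card_zero.le
  have hne : Nonempty (W 0) := Fintype.card_pos_iff.mp (by rw [D.card_zero]; exact one_pos)
  refine ⟨fun _ => one_pos, fun _ => one_pos, fun k hk => absurd hk (by omega),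
    fun k hk => absurd hk (by omega), fun k hk => absurd hk (by omega),
    fun k hk => absurd hk (by omega), zero_le_one, one_pos, one_pos, fun x => ?_⟩
  refine ⟨1, 1, 0, fun _ => 1, ⟨?_, ?_, ?_, ?_, ?_, ?_, ?_⟩, Classical.arbitrary _, ?_, ?_⟩
  · rw [Matrix.mul_one]
  · rw [Matrix.mul_one, Matrix.one_mul, D.E_zero]
    exact Matrix.diagonal_zero.symm
  · intro h0
    rw [Matrix.mul_one, Matrix.one_mul, D.TT_lt h0, D.T_zero h0]
    exact Matrix.diagonal_one.symm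
  · intro i j
    rw [Subsingleton.elim j i, Matrix.one_apply_eq]
    simp
  · intro i j
    rw [Subsingleton.elim j i, Matrix.one_apply_eq]
    simp
  · intro i j hij
    exact absurd (Subsingleton.elim i j) hij
  · intro i
    simp
  · simp
  · simp [ang]

theorem st_succ (D : Tow r c W E) {δ : ℝ} (hδ : 0 < δ) {l : ℕ} (hl : l < r) {ρ σ : ℕ → ℝ}
    {g : ℕ → (ℕ → ℝ) → ℂ} {b γ α : ℝ} (h : St D δ l ρ σ g b γ α) :
    ∃ ρ' σ' g' b' γ' α', St D δ (l + 1) ρ' σ' g' b' γ' α' := by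
  classical
  set S : ℝ := ∑ k ∈ Finset.range l, σ k with hS
  obtain ⟨H, hH⟩ := D.hi_bd ⟨l, hl⟩ S
  obtain ⟨s₀, hs₀, Cst, hC, hstep⟩ := step (W' := W l) (W := W (l + 1)) (c l) (c (l + 1))
    (D.e ⟨l, hl⟩) (D.lo ⟨l, hl⟩) (D.lo_zero ⟨l, hl⟩) h.hb h.hγ h.hα (le_max_right H 0)
  set s : ℝ := min s₀ (min (δ * ρ (l - 1)) (δ / Cst)) with hs
  have hspos : 0 < s := by
    refine lt_min hs₀ (lt_min (mul_pos hδ (h.ρpos _)) (div_pos hδ hC))
  have hs1 : s ≤ s₀ := min_le_left _ _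
  have hs2 : s ≤ δ * ρ (l - 1) := (min_le_right _ _).trans (min_le_left _ _)
  have hs3 : s ≤ δ / Cst := (min_le_right _ _).trans (min_le_right _ _)
  have hs4 : Cst * s ^ 2 ≤ δ * s := by
    have : Cst * s ≤ δ := by
      rw [mul_comm]
      exact (le_div_iff₀ hC).mp hs3
    nlinarith
  obtain ⟨b₁, γ₁, hb₁, hγ₁, hCγ, hmain⟩ := hstep s hspos hs1
  set ρ' := Function.update ρ l s with hρ'
  set σ' := Function.update σ l (s ^ (c l + 2) / α) with hσ'
  set B : (ℕ → ℝ) → ℂ := fun x => (∑ k ∈ Finset.range l, g k x) +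
    s * (((c l : ℂ) + 2) * Complex.exp (th c l x * Complex.I)) with hB
  have hαC : (α : ℂ) ≠ 0 := by exact_mod_cast h.hα.ne'
  have hql : ∀ x, qq σ' x l = Complex.exp (x l * Complex.I) / α * (s : ℂ) ^ (c l + 2) := by
    intro x
    simp only [qq, hσ', Function.update_self]
    push_cast
    field_simp
  have hqk : ∀ x k, k < l → qq σ x k = qq σ' x k := by
    intro x k hk
    simp only [qq, hσ', Function.update_of_ne hk.ne]
  have hqn : ∀ x, ∀ k < l, ‖qq σ' x k‖ ≤ S := by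
    intro x k hk
    rw [← hqk x k hk, qq, norm_mul, Complex.norm_real, Real.norm_eq_abs, abs_of_pos (h.σpos k),
      Complex.norm_exp_ofReal_mul_I, mul_one]
    exact Finset.single_le_sum (fun k _ => (h.σpos k).le) (Finset.mem_range.mpr hk)
  have key : ∀ x, ∃ P₁ P₁' c₁ a₁ i₁, Lev (l + 1 < r) (E (l + 1) (qq σ' x))
      (D.TT (l + 1) (qq σ' x)) b₁ γ₁ (s ^ (c (l + 1))) P₁ P₁' c₁ a₁ ∧
      ‖c₁ i₁ - B x‖ ≤ Cst * s ^ 2 ∧
      a₁ i₁ = ((s ^ (c (l + 1)) : ℝ) : ℂ) * Complex.exp (ang c (l + 1) x * Complex.I) := by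
    intro x
    obtain ⟨P, P', z, a, hL, i, hci, hai⟩ := h.lev x
    have hL' := Lev.congr hl.le hL (hqk x)
    have hT' : P' * D.T ⟨l, hl⟩ (qq σ' x) * P = Matrix.diagonal a := by
      rw [← D.TT_lt hl]
      exact hL'.hT hl
    obtain ⟨P₁, P₁', c₁, a₁, hL₁, hbr⟩ := hmain (E l (qq σ' x)) (D.T ⟨l, hl⟩ (qq σ' x))
      (E (l + 1) (qq σ' x)) (D.TT (l + 1) (qq σ' x)) (D.hi ⟨l, hl⟩ (qq σ' x)) (qq σ' x l)
      (Complex.exp (x l * Complex.I)) P P' z a (l + 1 < r)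
      (Complex.norm_exp_ofReal_mul_I _) (hql x)
      (fun v' v u w => (hH (qq σ' x) (hqn x) v' v u w).trans (le_max_left _ _))
      (D.hi_zero ⟨l, hl⟩ _) (D.block ⟨l, hl⟩ _)
      (D.cmp_lo ⟨l, hl⟩ _ P P' z hL'.inv hL'.hE)
      (D.cmp_hi ⟨l, hl⟩ _ P P' z a hL'.inv hL'.hE hT')
      (fun hl1 => ⟨by rw [D.TT_lt hl1]; exact D.comm ⟨l + 1, hl1⟩ _,
        by rw [D.TT_lt hl1]; exact D.form ⟨l, hl⟩ hl1 _⟩)
      ⟨hL'.inv, hL'.hE, fun _ => hT', hL'.bd, hL'.bd', hL'.gap, hL'.abs⟩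
    obtain ⟨i₁, hi₁, hi₁'⟩ := hbr i (Complex.exp (th c l x * Complex.I)) (by
      rw [← Complex.exp_nat_mul, hai]
      have e1 : ((c l + 2 : ℕ) : ℂ) * (th c l x * Complex.I) =
          x l * Complex.I + ang c l x * Complex.I := by
        have := th_mul c l x
        have h2 : (((c l : ℝ) + 2 : ℝ) : ℂ) * (th c l x : ℂ) = ((x l + ang c l x : ℝ) : ℂ) := by
          rw [← this]
          push_cast
          ring
        push_cast at h2 ⊢
        linear_combination Complex.I * h2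
      rw [e1, Complex.exp_add]
      field_simp)
    refine ⟨P₁, P₁', c₁, a₁, i₁, hL₁, ?_, ?_⟩
    · rw [hci] at hi₁
      exact hi₁
    · rw [hi₁', mul_pow, ← Complex.exp_nat_mul]
      have e1 : ((c (l + 1) : ℕ) : ℂ) * (th c l x * Complex.I) =
          ang c (l + 1) x * Complex.I := by
        rw [ang]
        push_cast
        ring
      rw [e1]
      push_cast
      rfl
  choose P₁ P₁' c₁ a₁ i₁ hL₁ hc₁ ha₁ using key
  set U : (ℕ → ℝ) → ℂ := fun x => c₁ x (i₁ x) with hU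
  have huniq : ∀ x u, (∃ v : W (l + 1) → ℂ, v ≠ 0 ∧
      (E (l + 1) (qq σ' x)).mulVec v = u • v) → ‖u - B x‖ ≤ Cst * s ^ 2 → u = U x := by
    intro x u hu hub
    obtain ⟨j, hj⟩ := (hL₁ x).all hu
    by_contra hne
    have hji : j ≠ i₁ x := fun h' => hne (by rw [← hj, h'])
    have h5 := (hL₁ x).gap j (i₁ x) hji
    have h6 : ‖c₁ x j - c₁ x (i₁ x)‖ ≤ 2 * (Cst * s ^ 2) := by
      have e1 : c₁ x j - c₁ x (i₁ x) = (u - B x) - (c₁ x (i₁ x) - B x) := by
        rw [hj]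
        ring
      rw [e1]
      refine (norm_sub_le _ _).trans ?_
      linarith [hc₁ x]
    linarith
  have hqc : Continuous fun x => qq σ' x := by
    refine continuous_pi (fun k => ?_)
    unfold qq
    fun_prop
  have hBc : Continuous B := by
    refine (continuous_finsetSum _ (fun k hk => h.cont k (Finset.mem_range.mp hk))).add ?_
    have := th_cont c l
    fun_prop
  have hUc : Continuous U :=
    cont_eig ((D.E_cont (l + 1) hl).comp hqc) hBc (fun x => (hL₁ x).eig (i₁ x)) hc₁ huniq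
  have hUp : ∀ x x' : ℕ → ℝ, (∀ i ≤ l, ∃ m : ℤ, th c i x' - th c i x = 2 * Real.pi * m) →
      B x' = B x ∧ U x' = U x := by
    intro x x' hx
    have hBB : B x' = B x := by
      simp only [hB]
      obtain ⟨m, hm⟩ := hx l le_rfl
      rw [exp_per hm]
      congr 1
      refine Finset.sum_congr rfl (fun k hk => ?_)
      have hk' := Finset.mem_range.mp hk
      exact h.per k hk' x x' (fun i hi => hx i (by omega))
    refine ⟨hBB, ?_⟩
    have hEE : E (l + 1) (qq σ' x') = E (l + 1) (qq σ' x) := by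
      refine D.E_congr (l + 1) hl _ _ (fun k hk => ?_)
      obtain ⟨m, hm⟩ := x_per hx k (by omega)
      simp only [qq]
      rw [exp_per hm]
    refine huniq x (U x') ?_ ?_
    · rw [← hEE]
      exact (hL₁ x').eig (i₁ x')
    · rw [← hBB]
      exact hc₁ x'
  set g' := Function.update g l (fun x => U x - ∑ k ∈ Finset.range l, g k x) with hg'
  have hg'k : ∀ k, k < l → g' k = g k := fun k hk => Function.update_of_ne hk.ne _ _
  have hg'l : g' l = fun x => U x - ∑ k ∈ Finset.range l, g k x := Function.update_self _ _ _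
  have hρ'k : ∀ k, k < l → ρ' k = ρ k := fun k hk => Function.update_of_ne hk.ne _ _
  have hρ'l : ρ' l = s := Function.update_self _ _ _
  refine ⟨ρ', σ', g', b₁, γ₁, s ^ (c (l + 1)),
    ⟨?_, ?_, ?_, ?_, ?_, ?_, hb₁, hγ₁, by positivity, ?_⟩⟩
  · intro k
    by_cases hk : k = l
    · rw [hk, hρ'l]
      exact hspos
    · rw [hρ', Function.update_of_ne hk]
      exact h.ρpos k
  · intro k
    by_cases hk : k = l
    · rw [hk, hσ', Function.update_self]
      have := h.hα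
      positivity
    · rw [hσ', Function.update_of_ne hk]
      exact h.σpos k
  · intro k hk
    by_cases hkl : k + 1 < l
    · rw [hρ'k _ hkl, hρ'k k (by omega)]
      exact h.dec k hkl
    · have hkl' : l = k + 1 := by omega
      rw [← hkl', hρ'l, hρ'k k (by omega)]
      have : l - 1 = k := by omega
      rw [← this]
      exact hs2
  · intro k hk
    rcases Nat.lt_succ_iff_lt_or_eq.mp hk with hk | hk
    · rw [hg'k k hk]
      exact h.cont k hk
    · rw [hk, hg'l]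
      exact hUc.sub (continuous_finsetSum _ (fun k hk => h.cont k (Finset.mem_range.mp hk)))
  · intro k hk x x' hx
    rcases Nat.lt_succ_iff_lt_or_eq.mp hk with hk | hk
    · rw [hg'k k hk]
      exact h.per k hk x x' hx
    · subst hk
      rw [hg'l]
      simp only
      rw [(hUp x x' hx).2]
      congr 1
      refine Finset.sum_congr rfl (fun k' hk' => ?_)
      have hk'' := Finset.mem_range.mp hk'
      exact h.per k' hk'' x x' (fun i hi => hx i (by omega))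
  · intro k hk x
    rcases Nat.lt_succ_iff_lt_or_eq.mp hk with hk | hk
    · rw [hg'k k hk, hρ'k k hk]
      exact h.app k hk x
    · subst hk
      rw [hg'l, hρ'l]
      refine le_trans (le_of_eq ?_) ((hc₁ x).trans hs4)
      congr 1
      simp only [hB, hU]
      ring
  · intro x
    refine ⟨P₁ x, P₁' x, c₁ x, a₁ x, hL₁ x, i₁ x, ?_, ha₁ x⟩
    rw [Finset.sum_range_succ, hg'l]
    have : ∑ k ∈ Finset.range l, g' k x = ∑ k ∈ Finset.range l, g k x :=
      Finset.sum_congr rfl (fun k hk => by rw [hg'k k (Finset.mem_range.mp hk)])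
    rw [this]
    simp only [hU]
    ring

/-- The spectrum of `E r` is nested: for all phases `x` of the quantum parameters with suitable
moduli `σ` there is the eigenvalue `∑ k < r, g k x`, `g k x ≈ (c k + 2) ρ k e^{i th k x}`. -/
theorem nest_main (D : Tow r c W E) {δ : ℝ} (hδ : 0 < δ) :
    ∃ (ρ σ : ℕ → ℝ) (g : ℕ → (ℕ → ℝ) → ℂ), (∀ k, 0 < ρ k) ∧ (∀ k, 0 < σ k) ∧
      (∀ k, k + 1 < r → ρ (k + 1) ≤ δ * ρ k) ∧ (∀ k < r, Continuous (g k)) ∧
      (∀ k < r, ∀ x x' : ℕ → ℝ, (∀ i ≤ k, ∃ m : ℤ, th c i x' - th c i x = 2 * Real.pi * m) →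
        g k x' = g k x) ∧
      (∀ k < r, ∀ x,
        ‖g k x - ((c k : ℂ) + 2) * ρ k * Complex.exp (th c k x * Complex.I)‖ ≤ δ * ρ k) ∧
      ∀ x, ∃ v : W r → ℂ, v ≠ 0 ∧
        (E r (fun k => σ k * Complex.exp (x k * Complex.I))).mulVec v =
          (∑ k ∈ Finset.range r, g k x) • v := by
  have main : ∀ l ≤ r, ∃ ρ σ g b γ α, St D δ l ρ σ g b γ α := by
    intro l
    induction l with
    | zero => exact fun _ => ⟨1, 1, 0, 1, 1, 1, st_zero D δ⟩
    | succ l ih =>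
      intro hl
      obtain ⟨ρ, σ, g, b, γ, α, h⟩ := ih (by omega)
      exact st_succ D hδ (by omega) h
  obtain ⟨ρ, σ, g, b, γ, α, h⟩ := main r le_rfl
  refine ⟨ρ, σ, g, h.ρpos, h.σpos, h.dec, h.cont, h.per, h.app, fun x => ?_⟩
  obtain ⟨P, P', z, a, hL, i, hci, _⟩ := h.lev x
  rw [← hci]
  exact hL.eig i

end

end Pool.Agent.FLY
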