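import Pool.Agent.FLE.FDefs

/-!
# FLY-SPLIT: the scaled block form of one step of a tower (abstract version of `FLE/Split`, `FLE/RBd`)

`W'` indexes the basis of the fibre, `Fin (m + 2) × W'` the basis of the total space.
-/

set_option autoImplicit false

noncomputable section

namespace Pool.Agent.FLY

open FLE (Bd dg kk tt)

variable {m : ℕ} {W' W : Type}

/-- the remainder of order `s ^ 2` -/
def rr (m : ℕ) (lo hi : Fin (m + 2) → Fin (m + 2) → Matrix W' W' ℂ) (κ s : ℂ) :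
    Matrix (Fin (m + 2) × W') (Fin (m + 2) × W') ℂ := open Classical in fun p r =>
  (if p.1.val + 1 < r.1.val then
    s ^ (r.1.val - p.1.val - 2) * lo p.1 r.1 p.2 r.2 else 0) +
  (if r.1.val < p.1.val ∧ ¬(p.1 = Fin.last (m + 1) ∧ r.1 = 0) then
    κ * s ^ (m - (p.1.val - r.1.val)) * hi p.1 r.1 p.2 r.2 else 0)

/-- the matrix in the scaled basis -/
def mm (m : ℕ) (E' : Matrix W' W' ℂ) (lo hi : Fin (m + 2) → Fin (m + 2) → Matrix W' W' ℂ)
    (κ s : ℂ) : Matrix (Fin (m + 2) × W') (Fin (m + 2) × W') ℂ :=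
  dg m E' + s • kk (fun v : Fin (m + 1) => lo v.castSucc v.succ)
    (κ • hi (Fin.last (m + 1)) 0) + s ^ 2 • rr m lo hi κ s

private theorem sp_kk (lo hi : Fin (m + 2) → Fin (m + 2) → Matrix W' W' ℂ) (κ : ℂ)
    (v' v : Fin (m + 2)) (u w : W') :
    kk (fun v : Fin (m + 1) => lo v.castSucc v.succ) (κ • hi (Fin.last (m + 1)) 0)
      (v', u) (v, w) = (if v.val = v'.val + 1 then lo v' v u w else 0) +
      (if v' = Fin.last (m + 1) ∧ v = 0 then κ * hi v' v u w else 0) := by
  unfold kk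
  congr 1
  · by_cases h : v.val = v'.val + 1
    · rw [if_pos h]
      have hlt : v'.val < m + 1 := by have := v.isLt; omega
      have e1 : (⟨v'.val, hlt⟩ : Fin (m + 1)).castSucc = v' := Fin.ext rfl
      have e2 : (⟨v'.val, hlt⟩ : Fin (m + 1)).succ = v := Fin.ext (by rw [Fin.val_succ]; exact h.symm)
      rw [Finset.sum_eq_single (⟨v'.val, hlt⟩ : Fin (m + 1))]
      · rw [if_pos ⟨e1.symm, e2.symm⟩]
        show lo (⟨v'.val, hlt⟩ : Fin (m + 1)).castSucc (⟨v'.val, hlt⟩ : Fin (m + 1)).succ u w = _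
        rw [e1, e2]
      · intro x _ hx
        rw [if_neg]
        rintro ⟨h1, -⟩
        apply hx
        apply Fin.ext
        have h2 : v'.val = x.val := congrArg Fin.val h1
        exact h2.symm
      · intro h1
        exact absurd (Finset.mem_univ _) h1
    · rw [if_neg h]
      refine Finset.sum_eq_zero fun x _ => ?_
      rw [if_neg]
      rintro ⟨h1, h2⟩
      apply h
      have h1' : v'.val = x.val := congrArg Fin.val h1
      have h2' : v.val = x.val + 1 := by
        have h3 : v = x.succ := h2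
        rw [h3, Fin.val_succ]
      omega
  · by_cases h : v' = Fin.last (m + 1) ∧ v = 0
    · rw [if_pos h, if_pos h, Matrix.smul_apply, smul_eq_mul, h.1, h.2]
    · rw [if_neg h, if_neg h]

theorem split_m {E' : Matrix W' W' ℂ} {E : Matrix W W ℂ} {e : Fin (m + 2) × W' ≃ W}
    {lo hi : Fin (m + 2) → Fin (m + 2) → Matrix W' W' ℂ} {q κ s : ℂ} (hq : q = κ * s ^ (m + 2))
    (hlo : ∀ v' v, v ≤ v' → lo v' v = 0) (hhi : ∀ v' v, v' ≤ v → hi v' v = 0)
    (hE : ∀ v' v u w, E (e (v', u)) (e (v, w)) =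
      (if v' = v then E' u w else 0) + lo v' v u w + q * hi v' v u w)
    (p r : Fin (m + 2) × W') :
    E (e p) (e r) * s ^ r.1.val = s ^ p.1.val * mm m E' lo hi κ s p r := by
  obtain ⟨v', u⟩ := p
  obtain ⟨v, w⟩ := r
  have hM : mm m E' lo hi κ s (v', u) (v, w) = (if v' = v then E' u w else 0) +
      s * ((if v.val = v'.val + 1 then lo v' v u w else 0) +
        (if v' = Fin.last (m + 1) ∧ v = 0 then κ * hi v' v u w else 0)) +
      s ^ 2 * ((if v'.val + 1 < v.val then s ^ (v.val - v'.val - 2) * lo v' v u w else 0) +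
        (if v.val < v'.val ∧ ¬(v' = Fin.last (m + 1) ∧ v = 0) then
          κ * s ^ (m - (v'.val - v.val)) * hi v' v u w else 0)) := by
    unfold mm
    rw [Matrix.add_apply, Matrix.add_apply, Matrix.smul_apply, Matrix.smul_apply, smul_eq_mul,
      smul_eq_mul, sp_kk]
    unfold rr
    congr
  show E (e (v', u)) (e (v, w)) * s ^ v.val = s ^ v'.val * mm m E' lo hi κ s (v', u) (v, w)
  rw [hE, hM, hq]
  have hlo : v.val ≤ v'.val → lo v' v u w = 0 := fun h => by
    rw [hlo v' v h]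
    rfl
  have hhi : v'.val ≤ v.val → hi v' v u w = 0 := fun h => by
    rw [hhi v' v h]
    rfl
  rcases Nat.lt_trichotomy v'.val v.val with h | h | h
  · have hne : v' ≠ v := fun e => by rw [e] at h; exact lt_irrefl _ h
    have hnc : ¬(v' = Fin.last (m + 1) ∧ v = 0) := by
      rintro ⟨-, e⟩
      rw [e] at h
      exact absurd h (Nat.not_lt_zero _)
    have c1 : ¬(v.val < v'.val ∧ ¬(v' = Fin.last (m + 1) ∧ v = 0)) := fun e => by
      have := e.1
      omega
    rw [hhi h.le, if_neg hne, if_neg hnc, if_neg c1]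
    by_cases h1 : v.val = v'.val + 1
    · have c2 : ¬ v'.val + 1 < v.val := by omega
      rw [if_pos h1, if_neg c2, h1]
      ring
    · have c2 : v'.val + 1 < v.val := by omega
      rw [if_neg h1, if_pos c2]
      have h2 : v.val = v'.val + 2 + (v.val - v'.val - 2) := by omega
      have h3 : s ^ v.val = s ^ v'.val * s ^ 2 * s ^ (v.val - v'.val - 2) := by
        rw [← pow_add, ← pow_add, ← h2]
      rw [h3]
      ring
  · have he : v' = v := Fin.ext h
    have c1 : ¬(v.val < v'.val ∧ ¬(v' = Fin.last (m + 1) ∧ v = 0)) := fun e => by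
      have := e.1
      omega
    have c2 : ¬ v'.val + 1 < v.val := by omega
    have c3 : ¬ v.val = v'.val + 1 := by omega
    rw [hlo h.ge, hhi h.le, if_pos he, if_neg c1, if_neg c2, if_neg c3, h]
    have hnc : ¬(v' = Fin.last (m + 1) ∧ v = 0) := by
      rintro ⟨e1, e2⟩
      rw [he, e2] at e1
      have := congrArg Fin.val e1
      simp at this
    rw [if_neg hnc]
    ring
  · have hne : v' ≠ v := fun e => by rw [e] at h; exact lt_irrefl _ h
    have c2 : ¬ v'.val + 1 < v.val := by omega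
    have c3 : ¬ v.val = v'.val + 1 := by omega
    rw [hlo h.le, if_neg hne, if_neg c2, if_neg c3]
    by_cases hc : v' = Fin.last (m + 1) ∧ v = 0
    · have h1 : v'.val = m + 1 := by rw [hc.1]; rfl
      have h2 : v.val = 0 := by rw [hc.2]; rfl
      rw [if_pos hc, if_neg (fun e => e.2 hc), h1, h2]
      ring
    · rw [if_neg hc, if_pos ⟨h, hc⟩]
      have hle : v'.val - v.val ≤ m := by
        by_contra hcon
        apply hc
        have h1 := v'.isLt
        exact ⟨Fin.ext (by rw [Fin.val_last]; omega), Fin.ext (by rw [Fin.val_zero]; omega)⟩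
      have h2 : s ^ (m + 2) * s ^ v.val = s ^ v'.val * s ^ 2 * s ^ (m - (v'.val - v.val)) := by
        rw [← pow_add, ← pow_add, ← pow_add]
        congr 1
        omega
      linear_combination (κ * hi v' v u w) * h2

/-- The shape of the corner operator `T` of the next level in terms of the corner operator `T'` of
this level: type `A`, type `C` or the end of a component; `c'` is the size of the next polygon
minus 2. -/
def TForm [DecidableEq W'] (m c' : ℕ) (e : Fin (m + 2) × W' ≃ W) (q : ℂ) (T' : Matrix W' W' ℂ)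
    (T : Matrix W W ℂ) : Prop :=
  (c' = m + 1 ∧ ∀ v' v u w, T (e (v', u)) (e (v, w)) =
      (if v'.val = v.val + 1 then q * T' u w else 0) +
      (if v = Fin.last (m + 1) ∧ v' = 0 then (1 : Matrix W' W' ℂ) u w else 0)) ∨
    (c' = m + 2 ∧ ∀ v' v u w, T (e (v', u)) (e (v, w)) = if v' = v then q * T' u w else 0) ∨
    (c' = 0 ∧ ∀ v' v u w, T (e (v', u)) (e (v, w)) =
      if v' = v then (1 : Matrix W' W' ℂ) u w else 0)

theorem split_ta [DecidableEq W'] {T' : Matrix W' W' ℂ} {T : Matrix W W ℂ}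
    {e : Fin (m + 2) × W' ≃ W} {q κ s : ℂ} (hq : q = κ * s ^ (m + 2))
    (hT : ∀ v' v u w, T (e (v', u)) (e (v, w)) =
      (if v'.val = v.val + 1 then q * T' u w else 0) +
      (if v = Fin.last (m + 1) ∧ v' = 0 then (1 : Matrix W' W' ℂ) u w else 0))
    (p r : Fin (m + 2) × W') :
    T (e p) (e r) * s ^ r.1.val = s ^ p.1.val * ((s ^ (m + 1) • tt m κ T') p r) := by
  obtain ⟨v', u⟩ := p
  obtain ⟨v, w⟩ := r
  have hTT : tt m κ T' (v', u) (v, w) = (if v'.val = v.val + 1 then κ * T' u w else 0) +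
      (if v = Fin.last (m + 1) ∧ v' = 0 ∧ u = w then 1 else 0) := by
    unfold tt
    congr
  rw [Matrix.smul_apply, smul_eq_mul, hTT]
  show T (e (v', u)) (e (v, w)) * s ^ v.val = s ^ v'.val * _
  rw [hT, hq]
  by_cases h1 : v'.val = v.val + 1
  · have h2 : ¬(v = Fin.last (m + 1) ∧ v' = 0 ∧ u = w) := by
      rintro ⟨-, e, -⟩
      rw [e] at h1
      simp at h1
    have h3 : ¬(v = Fin.last (m + 1) ∧ v' = 0) := fun h => by
      rw [h.2] at h1
      simp at h1
    rw [if_pos h1, if_neg h2, if_neg h3, if_pos h1, h1]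
    ring
  · rw [if_neg h1, if_neg h1]
    by_cases h2 : v = Fin.last (m + 1) ∧ v' = 0
    · have h3 : v.val = m + 1 := by rw [h2.1]; rfl
      have h4 : v'.val = 0 := by rw [h2.2]; rfl
      rw [if_pos h2, h3, h4, Matrix.one_apply]
      by_cases h5 : u = w
      · rw [if_pos h5, if_pos ⟨h2.1, h2.2, h5⟩]
        ring
      · rw [if_neg h5, if_neg (fun h => h5 h.2.2)]
        ring
    · rw [if_neg h2, if_neg (fun h => h2 ⟨h.1, h.2.1⟩)]
      ring

theorem split_dg {X' : Matrix W' W' ℂ} {T : Matrix W W ℂ}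
    {e : Fin (m + 2) × W' ≃ W} {s : ℂ}
    (hT : ∀ v' v u w, T (e (v', u)) (e (v, w)) = if v' = v then X' u w else 0)
    (p r : Fin (m + 2) × W') :
    T (e p) (e r) * s ^ r.1.val = s ^ p.1.val * dg m X' p r := by
  obtain ⟨v', u⟩ := p
  obtain ⟨v, w⟩ := r
  show T (e (v', u)) (e (v, w)) * s ^ v.val = s ^ v'.val * _
  rw [hT]
  unfold dg
  by_cases h : v' = v
  · subst h
    rw [if_pos rfl]
    exact mul_comm _ _
  · rw [if_neg h]
    simp

/-- bounds for the blocks -/
theorem r_bd [Fintype W'] {lo : Fin (m + 2) → Fin (m + 2) → Matrix W' W' ℂ} {k₀ H : ℝ}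
    (hk : 0 ≤ k₀) (hH : 0 ≤ H) : ∃ b₁ : ℝ, 0 ≤ b₁ ∧
    ∀ (hi : Fin (m + 2) → Fin (m + 2) → Matrix W' W' ℂ) (κ s : ℂ),
      (∀ v' v u w, ‖hi v' v u w‖ ≤ H) → ‖κ‖ ≤ k₀ → ‖s‖ ≤ 1 →
      Bd (kk (fun v : Fin (m + 1) => lo v.castSucc v.succ)
        (κ • hi (Fin.last (m + 1)) 0)) b₁ ∧ Bd (rr m lo hi κ s) b₁ := by
  obtain ⟨L, hL0, hL⟩ : ∃ L : ℝ, 0 ≤ L ∧ ∀ (v' v : Fin (m + 2)) (u w : W'),
      ‖lo v' v u w‖ ≤ L := by
    refine ⟨∑ v', ∑ v, ∑ u, ∑ w, ‖lo v' v u w‖, by positivity, fun v' v u w => ?_⟩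
    have h1 : ‖lo v' v u w‖ ≤ ∑ w, ‖lo v' v u w‖ :=
      Finset.single_le_sum (f := fun w => ‖lo v' v u w‖) (fun _ _ => norm_nonneg _)
        (Finset.mem_univ w)
    have h2 : ∑ w, ‖lo v' v u w‖ ≤ ∑ u, ∑ w, ‖lo v' v u w‖ :=
      Finset.single_le_sum (f := fun u => ∑ w, ‖lo v' v u w‖)
        (fun _ _ => Finset.sum_nonneg fun _ _ => norm_nonneg _) (Finset.mem_univ u)
    have h3 : ∑ u, ∑ w, ‖lo v' v u w‖ ≤ ∑ v, ∑ u, ∑ w, ‖lo v' v u w‖ :=
      Finset.single_le_sum (f := fun v => ∑ u, ∑ w, ‖lo v' v u w‖)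
        (fun _ _ => Finset.sum_nonneg fun _ _ => Finset.sum_nonneg fun _ _ => norm_nonneg _)
        (Finset.mem_univ v)
    have h4 : ∑ v, ∑ u, ∑ w, ‖lo v' v u w‖ ≤ ∑ v', ∑ v, ∑ u, ∑ w, ‖lo v' v u w‖ :=
      Finset.single_le_sum (f := fun v' => ∑ v, ∑ u, ∑ w, ‖lo v' v u w‖)
        (fun _ _ => Finset.sum_nonneg fun _ _ => Finset.sum_nonneg fun _ _ =>
          Finset.sum_nonneg fun _ _ => norm_nonneg _) (Finset.mem_univ v')
    exact h1.trans (h2.trans (h3.trans h4))
  refine ⟨((m : ℝ) + 1) * L + L + k₀ * H, by positivity, ?_⟩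
  intro hi κ s hHi hκ hs
  have hkH : 0 ≤ k₀ * H := mul_nonneg hk hH
  have hlL : 0 ≤ ((m : ℝ) + 1) * L := by positivity
  have hpow : ∀ n : ℕ, ‖s ^ n‖ ≤ 1 := by
    intro n
    rw [norm_pow]
    exact pow_le_one₀ (norm_nonneg _) hs
  refine ⟨?_, ?_⟩
  · intro p r
    unfold kk
    refine (norm_add_le _ _).trans ?_
    have h1 : ‖∑ v : Fin (m + 1), (if p.1 = v.castSucc ∧ r.1 = v.succ then
        lo v.castSucc v.succ p.2 r.2 else 0)‖ ≤ ((m : ℝ) + 1) * L := by
      refine (norm_sum_le _ _).trans ((Finset.sum_le_card_nsmul _ _ L ?_).trans ?_)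
      · intro v _
        split_ifs
        · exact hL _ _ _ _
        · rw [norm_zero]
          exact hL0
      · rw [Finset.card_univ, Fintype.card_fin, nsmul_eq_mul]
        push_cast
        exact le_rfl
    have h2 : ‖(if p.1 = Fin.last (m + 1) ∧ r.1 = 0 then
        (κ • hi (Fin.last (m + 1)) 0) p.2 r.2 else 0)‖ ≤ k₀ * H := by
      split_ifs
      · rw [Matrix.smul_apply, smul_eq_mul, norm_mul]
        exact mul_le_mul hκ (hHi _ _ _ _) (norm_nonneg _) hk
      · rw [norm_zero]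
        exact hkH
    linarith
  · intro p r
    unfold rr
    refine (norm_add_le _ _).trans ?_
    have h1 : ‖(if p.1.val + 1 < r.1.val then
        s ^ (r.1.val - p.1.val - 2) * lo p.1 r.1 p.2 r.2 else 0)‖ ≤ L := by
      split_ifs
      · rw [norm_mul]
        calc _ ≤ 1 * L := mul_le_mul (hpow _) (hL _ _ _ _) (norm_nonneg _) zero_le_one
          _ = L := one_mul _
      · rw [norm_zero]
        exact hL0
    have h2 : ∀ c : Prop, [Decidable c] → ‖(if c then
        κ * s ^ (m - (p.1.val - r.1.val)) * hi p.1 r.1 p.2 r.2 else 0)‖ ≤ k₀ * H := by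
      intro c _
      split_ifs
      · rw [norm_mul, norm_mul]
        refine mul_le_mul ?_ (hHi _ _ _ _) (norm_nonneg _) hk
        calc _ ≤ k₀ * 1 := mul_le_mul hκ (hpow _) (norm_nonneg _) hk
          _ = k₀ := mul_one _
      · rw [norm_zero]
        exact hkH
    have h3 := h2 (r.1.val < p.1.val ∧ ¬(p.1 = Fin.last (m + 1) ∧ r.1 = 0))
    linarith

end Pool.Agent.FLY
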